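import Mathlib

/-! The cookie game. A position with `n` components is a function `Fin n → ℕ`. -/

namespace Pool.Agent.Lib.MP_900844_co

/-- The position after selecting component `k`: that heap is removed and every other heap of
positive size is decreased by one (subtraction in `ℕ` leaves the empty heaps empty). -/
def move {n : ℕ} (a : Fin (n + 1) → ℕ) (k : Fin (n + 1)) : Fin n → ℕ :=
  fun i => a (k.succAbove i) - 1

/-- Type `N`: the player to move can select a positive component that leaves a position which is
not of type `N`. -/
def IsN : (n : ℕ) → (Fin n → ℕ) → Prop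
  | 0, _ => False
  | n + 1, a => ∃ k : Fin (n + 1), 1 ≤ a k ∧ ¬ IsN n (move a k)

/-- Component `k` is winning: it can be selected and this leaves a position of type `P`. -/
def Winning {n : ℕ} (a : Fin (n + 1) → ℕ) (k : Fin (n + 1)) : Prop :=
  1 ≤ a k ∧ ¬ IsN n (move a k)

/-- Strict positions: all components are positive, and only the value `n` may be repeated. -/
def Strict {n : ℕ} (a : Fin n → ℕ) : Prop :=
  (∀ k, 1 ≤ a k) ∧ ∀ k l, k ≠ l → a k = a l → a k = n

end Pool.Agent.Lib.MP_900844_co
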