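import Mathlib
import Pool.Agent.Lib.MP_900844_co.Defs

-- part Pool.Agent.Lib.MP_900844_co.Walk
section

/-! Lattice walks attached to cookie positions. -/

namespace Pool.Agent.Lib.MP_900844_co

/-- running maximum -/
def mx (S : ℕ → ℤ) : ℕ → ℤ
  | 0 => S 0
  | (L + 1) => max (mx S L) (S (L + 1))

theorem le_mx (S : ℕ → ℤ) {j L : ℕ} (h : j ≤ L) : S j ≤ mx S L := by
  induction L with
  | zero => obtain rfl : j = 0 := by omega
            exact le_rfl
  | succ L ih =>
    rcases Nat.lt_or_ge L j with h1 | h1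
    · obtain rfl : j = L + 1 := by omega
      exact le_max_right _ _
    · exact (ih h1).trans (le_max_left _ _)

theorem exists_mx (S : ℕ → ℤ) (L : ℕ) : ∃ j, j ≤ L ∧ S j = mx S L := by
  induction L with
  | zero => exact ⟨0, le_rfl, rfl⟩
  | succ L ih =>
    obtain ⟨j, hj, h⟩ := ih
    rcases le_total (mx S L) (S (L + 1)) with h1 | h1
    · exact ⟨L + 1, le_rfl, by simp [mx, h1]⟩
    · exact ⟨j, by omega, by simp [mx, h1, h]⟩

theorem mx_mono (S : ℕ → ℤ) {L L' : ℕ} (h : L ≤ L') : mx S L ≤ mx S L' := by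
  obtain ⟨j, hj, e⟩ := exists_mx S L
  rw [← e]
  exact le_mx S (hj.trans h)

theorem mx_eq (S : ℕ → ℤ) {L : ℕ} {t : ℤ} (h1 : ∀ j, j ≤ L → S j ≤ t) (h2 : ∃ j, j ≤ L ∧ S j = t) :
    mx S L = t := by
  obtain ⟨j, hj, e⟩ := exists_mx S L
  obtain ⟨j', hj', e'⟩ := h2
  have := h1 j hj
  have := le_mx S hj'
  omega

/-- the walk has steps `±1` up to time `n - 1` -/
def Walk (n : ℕ) (S : ℕ → ℤ) : Prop :=
  S 0 = 0 ∧ ∀ j, j + 1 < n → S (j + 1) = S j + 1 ∨ S (j + 1) = S j - 1

theorem Walk.parity {n : ℕ} {S : ℕ → ℤ} (h : Walk n S) {j : ℕ} (hj : j < n) :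
    (S j + j) % 2 = 0 := by
  induction j with
  | zero => simp [h.1]
  | succ j ih =>
    have := ih (by omega)
    have := h.2 j hj
    push_cast
    omega

theorem Walk.le_self {n : ℕ} {S : ℕ → ℤ} (h : Walk n S) {j : ℕ} (hj : j < n) : S j ≤ j := by
  induction j with
  | zero => simp [h.1]
  | succ j ih =>
    have := ih (by omega)
    have := h.2 j hj
    push_cast
    omega

theorem Walk.mx_nonneg {n : ℕ} {S : ℕ → ℤ} (h : Walk n S) (L : ℕ) : 0 ≤ mx S L := by
  have := le_mx S (Nat.zero_le L)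
  rw [h.1] at this
  exact this

/-- first passage -/
theorem Walk.hit {n : ℕ} {S : ℕ → ℤ} (h : Walk n S) {L : ℕ} (hL : L < n) {t : ℤ} (ht : 0 < t)
    (htL : t ≤ mx S L) : ∃ i, i + 1 ≤ L ∧ S (i + 1) = t ∧ S i = t - 1 ∧ mx S i = t - 1 := by
  induction L with
  | zero => simp only [mx, h.1] at htL; omega
  | succ L ih =>
    by_cases h1 : t ≤ mx S L
    · obtain ⟨i, hi, e⟩ := ih (by omega) h1
      exact ⟨i, by omega, e⟩
    · have h2 := le_mx S (le_refl L)
      have h3 := h.2 L hL
      simp only [mx] at htL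
      refine ⟨L, le_rfl, ?_, ?_, ?_⟩ <;> omega

/-- the characterisation of the positions of type P -/
def Ch (n : ℕ) (S : ℕ → ℤ) : Prop := ∃ k : ℕ, k % 2 = n % 2 ∧ mx S (n - max k 1) = 2 * k

/-- the walk after removing the component `i` -/
def Sp (S : ℕ → ℤ) (i j : ℕ) : ℤ := S j - if i ≤ j then 2 else 0

/-- the walk after the move -/
def Smv (S : ℕ → ℤ) (i j : ℕ) : ℤ := Sp S i (j + 1) - Sp S i 1

theorem Sp_le (S : ℕ → ℤ) (i j : ℕ) : Sp S i j ≤ S j := by
  unfold Sp; split_ifs <;> omega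

theorem le_Sp (S : ℕ → ℤ) (i j : ℕ) : S j - 2 ≤ Sp S i j := by
  unfold Sp; split_ifs <;> omega

theorem Sp_mono (S : ℕ → ℤ) {i i' : ℕ} (h : i ≤ i') (j : ℕ) : Sp S i j ≤ Sp S i' j := by
  unfold Sp; split_ifs <;> omega

theorem mx_Smv_le (S : ℕ → ℤ) (i L : ℕ) : mx (Smv S i) L ≤ mx S (L + 1) - Sp S i 1 := by
  obtain ⟨j, hj, e⟩ := exists_mx (Smv S i) L
  rw [← e, Smv]
  have := Sp_le S i (j + 1)
  have := le_mx S (j := j + 1) (L := L + 1) (by omega)
  omega

theorem le_mx_Smv (S : ℕ → ℤ) (h0 : S 0 = 0) (i L : ℕ) (h : 0 < mx S (L + 1)) :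
    mx S (L + 1) - 2 - Sp S i 1 ≤ mx (Smv S i) L := by
  obtain ⟨j, hj, e⟩ := exists_mx S (L + 1)
  obtain ⟨j', rfl⟩ : ∃ j', j = j' + 1 := by
    rcases j with _ | j
    · omega
    · exact ⟨j, rfl⟩
  have h1 := le_mx (Smv S i) (j := j') (L := L) (by omega)
  have h2 := le_Sp S i (j' + 1)
  rw [Smv] at h1
  omega

theorem Smv_zero (S : ℕ → ℤ) (i : ℕ) : Smv S i 0 = 0 := by simp [Smv]

theorem mx_Smv_nonneg (S : ℕ → ℤ) (i L : ℕ) : 0 ≤ mx (Smv S i) L := by
  have := le_mx (Smv S i) (Nat.zero_le L)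
  rwa [Smv_zero] at this

/-- number of positive components after the move -/
def Step (n : ℕ) (S : ℕ → ℤ) (i n' : ℕ) : Prop :=
  (Sp S i 1 = -1 ∧ n' + 1 = n) ∨ (Sp S i 1 = 1 ∧ n' + 2 = n)

theorem Ch_zero (S : ℕ → ℤ) (h : S 0 = 0) : Ch 0 S := ⟨0, rfl, by simp [mx, h]⟩

theorem not_Ch_of_Ch {n : ℕ} {S : ℕ → ℤ} (hw : Walk n S) {i n' : ℕ} (hs : Step n S i n')
    (hc : Ch n S) : ¬ Ch n' (Smv S i) := by
  rintro ⟨k, hk, e⟩
  obtain ⟨k₀, hk₀, e₀⟩ := hc
  have u := mx_Smv_le S i (n' - max k 1)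
  have l := le_mx_Smv S hw.1 i (n' - max k 1)
  have z := hw.1
  have s1 := Sp_le S i 1
  rcases hs with ⟨h1, h2⟩ | ⟨h1, h2⟩
  · rcases Nat.lt_or_ge k₀ k with h | h
    · by_cases hL : k ≤ n'
      · have := mx_mono S (L := n' - max k 1 + 1) (L' := n - max k₀ 1) (by omega)
        omega
      · have h3 : n' - max k 1 = 0 := by omega
        rw [h3] at e
        simp only [mx, Smv_zero] at e
        omega
    · have := mx_mono S (L := n - max k₀ 1) (L' := n' - max k 1 + 1) (by omega)
      omega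
  · rcases Nat.lt_or_ge k k₀ with h | h
    · have := mx_mono S (L := n - max k₀ 1) (L' := n' - max k 1 + 1) (by omega)
      omega
    · by_cases hL : max k 1 ≤ n'
      · have := mx_mono S (L := n' - max k 1 + 1) (L' := n - max k₀ 1) (by omega)
        omega
      · have h3 : n' - max k 1 = 0 := by omega
        rw [h3] at e
        simp only [mx, Smv_zero] at e
        have := le_mx S (j := 1) (L := n - max k₀ 1) (by omega)
        omega

/-- value of the maximum after the move, when nothing is removed in the range -/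
theorem mx_Smv_far (S : ℕ → ℤ) (h0 : S 0 = 0) {i L : ℕ} (hi : L + 1 < i) {t : ℤ}
    (ht : mx S (L + 1) = t) (hpos : 0 < t) : mx (Smv S i) L = t - Sp S i 1 := by
  have u := mx_Smv_le S i L
  obtain ⟨j, hj, e⟩ := exists_mx S (L + 1)
  obtain ⟨j', rfl⟩ : ∃ j', j = j' + 1 := by
    rcases j with _ | j
    · omega
    · exact ⟨j, rfl⟩
  have h1 := le_mx (Smv S i) (j := j') (L := L) (by omega)
  have h2 : Sp S i (j' + 1) = S (j' + 1) := by unfold Sp; rw [if_neg (by omega)]; simp
  rw [Smv] at h1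
  omega

/-- value of the maximum after the move, removing at a first passage time -/
theorem mx_Smv_hit (S : ℕ → ℤ) {i L : ℕ} (hi0 : 1 ≤ i) (hi : i ≤ L + 1) {t : ℤ} (h1 : S i = t)
    (h2 : mx S i = t) (h3 : mx S (L + 1) ≤ t + 2) :
    mx (Smv S (i + 1)) L = t - Sp S (i + 1) 1 := by
  refine mx_eq _ (fun j hj => ?_) ⟨i - 1, by omega, ?_⟩
  · rw [Smv]
    have : Sp S (i + 1) (j + 1) ≤ t := by
      unfold Sp
      split_ifs with h
      · have := le_mx S (j := j + 1) (L := L + 1) (by omega)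
        omega
      · have := le_mx S (j := j + 1) (L := i) (by omega)
        omega
    omega
  · rw [Smv, show i - 1 + 1 = i by omega]
    have : Sp S (i + 1) i = S i := by unfold Sp; rw [if_neg (by omega)]; simp
    omega

/-- every value between `T - 2` and `T` can be reached -/
theorem reach {n : ℕ} {S : ℕ → ℤ} (hw : Walk n S) {L : ℕ} (hL : L + 1 < n) {i₀ : ℕ} (hi₀ : n ≤ i₀)
    {t : ℤ} (h1 : S 1 ≤ t) (h2 : t ≤ mx S (L + 1)) (h3 : mx S (L + 1) ≤ t + 2) (h4 : t % 2 = 1) :
    ∃ i, 2 ≤ i ∧ (i = i₀ ∨ (i < n ∧ S i = S (i - 1) + 1)) ∧ mx (Smv S i) L = t - S 1 := by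
  have z := hw.1
  have s1 := hw.2 0 (by omega)
  simp only [zero_add] at s1
  have e1 : ∀ i, 2 ≤ i → Sp S i 1 = S 1 := fun i hi => by
    unfold Sp; rw [if_neg (by omega)]; simp
  by_cases hT : mx S (L + 1) = t
  · have hp := hw.mx_nonneg (L + 1)
    refine ⟨i₀, by omega, Or.inl rfl, ?_⟩
    rw [mx_Smv_far S z (by omega) hT (by omega), e1 _ (by omega)]
  · by_cases ht : 0 ≤ t
    · obtain ⟨i, hi, a1, a2, a3⟩ := hw.hit hL (t := t + 1) (by omega) (by omega)
      have hi0 : 1 ≤ i := by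
        rcases i with _ | i
        · simp only [zero_add] at a1; omega
        · omega
      refine ⟨i + 1, by omega, Or.inr ⟨by omega, by simp only [Nat.add_sub_cancel]; omega⟩, ?_⟩
      rw [mx_Smv_hit S hi0 (by omega) (t := t) (by omega) (by omega) h3, e1 _ (by omega)]
    · have ht' : t = -1 := by omega
      have hS1 : S 1 = -1 := by omega
      by_cases hneg : ∀ j, 1 ≤ j → j ≤ L + 1 → S j ≤ -1
      · refine ⟨i₀, by omega, Or.inl rfl, ?_⟩
        refine mx_eq _ (fun j hj => ?_) ⟨0, by omega, by rw [Smv_zero]; omega⟩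
        rw [Smv, e1 _ (by omega)]
        have := hneg (j + 1) (by omega) (by omega)
        have := Sp_le S i₀ (j + 1)
        omega
      · push Not at hneg
        have hex : ∃ j, 1 ≤ j ∧ j ≤ L + 1 ∧ -1 < S j := hneg
        classical
        obtain ⟨b1, b2, b3⟩ := Nat.find_spec hex
        have hmin : ∀ j, j < Nat.find hex → ¬ (1 ≤ j ∧ j ≤ L + 1 ∧ -1 < S j) :=
          fun j hj => Nat.find_min hex hj
        generalize Nat.find hex = i at b1 b2 b3 hmin
        have hi2 : 2 ≤ i := by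
          by_contra hh
          obtain rfl : i = 1 := by omega
          omega
        have c1 := hmin (i - 1) (by omega)
        have c2 := hw.2 (i - 1) (by omega)
        rw [show i - 1 + 1 = i by omega] at c2
        refine ⟨i, hi2, Or.inr ⟨by omega, by omega⟩, ?_⟩
        refine mx_eq _ (fun j hj => ?_) ⟨0, by omega, by rw [Smv_zero]; omega⟩
        rw [Smv, e1 _ hi2]
        have : Sp S i (j + 1) ≤ -1 := by
          unfold Sp
          split_ifs with h
          · have := le_mx S (j := j + 1) (L := L + 1) (by omega)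
            omega
          · have := hmin (j + 1) (by omega)
            omega
        omega

theorem exists_kstar {n : ℕ} {S : ℕ → ℤ} (hw : Walk n S) :
    ∃ k : ℕ, 2 * (k : ℤ) ≤ mx S (n - max k 1) ∧ mx S (n - (k + 1)) ≤ 2 * k + 1 := by
  have hex : ∃ k : ℕ, mx S (n - (k + 1)) ≤ 2 * k + 1 :=
    ⟨n, by rw [show n - (n + 1) = 0 by omega]; simp only [mx, hw.1]; omega⟩
  classical
  refine ⟨Nat.find hex, ?_, Nat.find_spec hex⟩
  have hmin : ∀ j, j < Nat.find hex → ¬ (mx S (n - (j + 1)) ≤ 2 * j + 1) :=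
    fun j hj => Nat.find_min hex hj
  generalize Nat.find hex = k at hmin
  rcases k with _ | k
  · simpa using hw.mx_nonneg _
  · have := hmin k (by omega)
    rw [show max (k + 1) 1 = k + 1 by omega]
    push_cast
    omega

theorem mx_succ_cases {n : ℕ} {S : ℕ → ℤ} (hw : Walk n S) {L : ℕ} (hL : L + 1 < n) :
    mx S (L + 1) = mx S L ∨ (mx S (L + 1) = mx S L + 1 ∧ (mx S (L + 1) + L + 1) % 2 = 0) := by
  have h1 := hw.parity hL
  have h2 := hw.2 L hL
  have h3 := le_mx S (le_refl L)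
  simp only [mx]
  push_cast at h1
  omega

theorem Walk.mx_le {n : ℕ} {S : ℕ → ℤ} (hw : Walk n S) {L : ℕ} (hL : L < n) : mx S L ≤ L := by
  obtain ⟨j, hj, e⟩ := exists_mx S L
  have := hw.le_self (j := j) (by omega)
  omega

theorem exists_move {n : ℕ} {S : ℕ → ℤ} (hw : Walk n S) (hn : 2 ≤ n) {i₀ : ℕ} (hi₀ : n ≤ i₀)
    (hc : ¬ Ch n S) : ∃ i n', 1 ≤ i ∧ (i = i₀ ∨ (i < n ∧ S i = S (i - 1) + 1)) ∧
      Step n S i n' ∧ Ch n' (Smv S i) := by
  obtain ⟨k, a1, a2⟩ := exists_kstar hw
  have z := hw.1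
  have s1 := hw.2 0 (by omega)
  simp only [zero_add] at s1
  have hne : k % 2 = n % 2 → mx S (n - max k 1) ≠ 2 * k := fun h e => hc ⟨k, h, e⟩
  have e1 : ∀ i, 2 ≤ i → Sp S i 1 = S 1 := fun i hi => by
    unfold Sp; rw [if_neg (by omega)]; simp
  have b1 := hw.mx_le (L := n - max k 1) (by omega)
  have hkn : max k 1 + 2 * k ≤ n := by omega
  -- relation between the two maxima
  have rel : k = 0 ∨ mx S (n - k) = mx S (n - (k + 1)) ∨
      (mx S (n - k) = mx S (n - (k + 1)) + 1 ∧ (mx S (n - k) + (n - k : ℕ)) % 2 = 0) := by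
    rcases Nat.eq_zero_or_pos k with h | h
    · exact Or.inl h
    · right
      have := mx_succ_cases hw (L := n - (k + 1)) (by omega)
      rw [show n - (k + 1) + 1 = n - k by omega] at this
      omega
  rcases s1 with s1 | s1
  · -- a component equal to one
    by_cases hp : k % 2 = n % 2
    · have hne' := hne hp
      by_cases hn2 : n = 2
      · subst hn2
        exact ⟨i₀, 0, by omega, Or.inl rfl, Or.inr ⟨by rw [e1 _ hi₀]; omega, rfl⟩,
          Ch_zero _ (Smv_zero _ _)⟩
      · have hT : mx S (n - 2 - max k 1 + 1) = 2 * k + 1 := by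
          rcases Nat.eq_zero_or_pos k with h | h
          · subst h
            have c1 := mx_mono S (L := n - 2 - max 0 1 + 1) (L' := n - (0 + 1)) (by omega)
            have c2 := le_mx S (j := 1) (L := n - 2 - max 0 1 + 1) (by omega)
            omega
          · rw [show n - 2 - max k 1 + 1 = n - (k + 1) by omega]
            rw [show max k 1 = k by omega] at a1 hne'
            omega
        obtain ⟨i, hi, hi', e⟩ := reach hw (L := n - 2 - max k 1) (by omega) hi₀ (t := 2 * k + 1)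
          (by omega) (by omega) (by omega) (by omega)
        exact ⟨i, n - 2, by omega, hi', Or.inr ⟨by rw [e1 _ hi]; omega, by omega⟩, k, by omega,
          by rw [e]; omega⟩
    · by_cases hT : mx S (n - max k 1) = 2 * k + 1
      · refine ⟨1, n - 1, le_rfl, Or.inr ⟨by omega, by simp only [Nat.sub_self]; omega⟩,
          Or.inl ⟨by unfold Sp; rw [if_pos le_rfl]; omega, by omega⟩, k, by omega, ?_⟩
        have u : ∀ j, Smv S 1 j = S (j + 1) - 1 := fun j => by
          unfold Smv Sp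
          rw [if_pos (by omega), if_pos le_rfl]
          omega
        have hL : n - 1 - max k 1 + 1 = n - max k 1 := by omega
        refine mx_eq _ (fun j hj => ?_) ?_
        · have := le_mx S (j := j + 1) (L := n - max k 1) (by omega)
          rw [u]; omega
        · obtain ⟨j, hj, e⟩ := exists_mx S (n - max k 1)
          rcases j with _ | j
          · omega
          · exact ⟨j, by omega, by rw [u]; omega⟩
      · have c2 := le_mx S (j := 1) (L := n - max k 1) (by omega)
        have hk1 : 1 ≤ k := by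
          by_contra hh
          obtain rfl : k = 0 := by omega
          simp only [zero_add, Nat.cast_zero, mul_zero] at a2 hT
          rw [show max 0 1 = 1 by rfl] at hT c2
          omega
        rw [show max k 1 = k by omega] at a1 hT b1 hkn
        have hM : mx S (n - k) = 2 * k := by omega
        have hT' : mx S (n - 2 - max (k - 1) 1 + 1) = 2 * k := by
          by_cases hk : k = 1
          · subst hk
            rw [show n - 2 - max (1 - 1) 1 + 1 = n - (1 + 1) by omega]
            omega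
          · rw [show n - 2 - max (k - 1) 1 + 1 = n - k by omega]
            exact hM
        obtain ⟨i, hi, hi', e⟩ := reach hw (L := n - 2 - max (k - 1) 1) (by omega) hi₀
          (t := 2 * k - 1) (by omega) (by omega) (by omega) (by omega)
        exact ⟨i, n - 2, by omega, hi', Or.inr ⟨by rw [e1 _ hi]; omega, by omega⟩, k - 1,
          by omega, by rw [e]; omega⟩
  · -- no component equal to one
    by_cases hp : k % 2 = n % 2
    · have hne' := hne hp
      have hT : mx S (n - (k + 1)) = 2 * k + 1 := by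
        rcases Nat.eq_zero_or_pos k with h | h
        · subst h
          rw [show max 0 1 = 0 + 1 by rfl] at a1 hne'
          omega
        · rw [show max k 1 = k by omega] at a1 hne'
          omega
      have b2 := hw.mx_le (L := n - (k + 1)) (by omega)
      obtain ⟨i, hi, hi', e⟩ := reach hw (L := n - 1 - max (k + 1) 1) (by omega) hi₀
        (t := 2 * k + 1) (by omega)
        (by rw [show n - 1 - max (k + 1) 1 + 1 = n - (k + 1) by omega]; omega)
        (by rw [show n - 1 - max (k + 1) 1 + 1 = n - (k + 1) by omega]; omega) (by omega)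
      exact ⟨i, n - 1, by omega, hi', Or.inl ⟨by rw [e1 _ hi]; omega, by omega⟩, k + 1,
        by omega, by rw [e]; push_cast; omega⟩
    · have hT : mx S (n - max k 1) ≤ 2 * k + 1 := by
        rcases Nat.eq_zero_or_pos k with h | h
        · subst h
          exact a2
        · rw [show max k 1 = k by omega]
          omega
      obtain ⟨i, hi, hi', e⟩ := reach hw (L := n - 1 - max k 1) (by omega) hi₀
        (t := 2 * k - 1) (by omega)
        (by rw [show n - 1 - max k 1 + 1 = n - max k 1 by omega]; omega)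
        (by rw [show n - 1 - max k 1 + 1 = n - max k 1 by omega]; omega) (by omega)
      exact ⟨i, n - 1, by omega, hi', Or.inl ⟨by rw [e1 _ hi]; omega, by omega⟩, k,
        by omega, by rw [e]; omega⟩

theorem mx_le_mx {S T : ℕ → ℤ} (h : ∀ j, S j ≤ T j) (L : ℕ) : mx S L ≤ mx T L := by
  obtain ⟨j, hj, e⟩ := exists_mx S L
  have := le_mx T hj
  have := h j
  omega

theorem mx_le_mx_add {S T : ℕ → ℤ} {c : ℤ} (h : ∀ j, S j ≤ T j + c) (L : ℕ) :
    mx S L ≤ mx T L + c := by
  obtain ⟨j, hj, e⟩ := exists_mx S L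
  have := le_mx T hj
  have := h j
  omega

theorem convex {n : ℕ} {S : ℕ → ℤ} {i₁ i₂ i₃ n₁ n₂ n₃ : ℕ} (h12 : i₁ ≤ i₂)
    (h23 : i₂ ≤ i₃) (s₁ : Step n S i₁ n₁) (s₂ : Step n S i₂ n₂) (s₃ : Step n S i₃ n₃)
    (c₁ : Ch n₁ (Smv S i₁)) (c₃ : Ch n₃ (Smv S i₃)) : Ch n₂ (Smv S i₂) := by
  obtain ⟨k₁, p₁, e₁⟩ := c₁
  obtain ⟨k₃, p₃, e₃⟩ := c₃
  have m12 := Sp_mono S h12 1
  have m23 := Sp_mono S h23 1
  have g12 : ∀ j, Smv S i₁ j ≤ Smv S i₂ j + (Sp S i₂ 1 - Sp S i₁ 1) := fun j => by
    have := Sp_mono S h12 (j + 1)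
    unfold Smv; omega
  have g23 : ∀ j, Smv S i₂ j ≤ Smv S i₃ j + (Sp S i₃ 1 - Sp S i₂ 1) := fun j => by
    have := Sp_mono S h23 (j + 1)
    unfold Smv; omega
  have g13 : ∀ j, Smv S i₁ j ≤ Smv S i₃ j + (Sp S i₃ 1 - Sp S i₁ 1) := fun j => by
    have := g12 j
    have := g23 j
    omega
  have g31 : ∀ j, Smv S i₃ j ≤ Smv S i₁ j + (2 + Sp S i₁ 1 - Sp S i₃ 1) := fun j => by
    have := Sp_le S i₃ (j + 1)
    have := le_Sp S i₁ (j + 1)
    unfold Smv; omega
  by_cases h13 : Sp S i₁ 1 = Sp S i₃ 1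
  · have n12 : n₂ = n₁ := by unfold Step at s₁ s₂; omega
    have n13 : n₃ = n₁ := by unfold Step at s₁ s₃; omega
    subst n12
    subst n13
    have hk : k₁ = k₃ := by
      rcases lt_trichotomy k₁ k₃ with h | h | h
      · have a1 := mx_le_mx_add g31 (n₃ - max k₃ 1)
        have a2 := mx_mono (Smv S i₁) (L := n₃ - max k₃ 1) (L' := n₃ - max k₁ 1) (by omega)
        omega
      · exact h
      · have a1 := mx_le_mx_add g13 (n₃ - max k₁ 1)
        have a2 := mx_mono (Smv S i₃) (L := n₃ - max k₁ 1) (L' := n₃ - max k₃ 1) (by omega)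
        omega
    subst hk
    have a1 := mx_le_mx_add g12 (n₃ - max k₁ 1)
    have a2 := mx_le_mx_add g23 (n₃ - max k₁ 1)
    exact ⟨k₁, p₁, by omega⟩
  · have t1 : Sp S i₁ 1 = -1 ∧ n₁ + 1 = n := by unfold Step at s₁ s₃; omega
    have t3 : Sp S i₃ 1 = 1 ∧ n₃ + 2 = n := by unfold Step at s₁ s₃; omega
    have hi1 : i₁ ≤ 1 := by
      by_contra hh
      have : Sp S i₁ 1 = Sp S i₃ 1 := by
        unfold Sp; rw [if_neg (by omega), if_neg (by omega)]
      exact h13 this
    by_cases hi2 : i₂ ≤ 1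
    · have e : Smv S i₂ = Smv S i₁ := by
        funext j
        unfold Smv Sp
        rw [if_pos (by omega), if_pos (by omega), if_pos (by omega), if_pos (by omega)]
      have e' : Sp S i₂ 1 = Sp S i₁ 1 := by
        unfold Sp
        rw [if_pos (by omega), if_pos (by omega)]
      have n12 : n₂ = n₁ := by unfold Step at s₂; omega
      rw [e, n12]
      exact ⟨k₁, p₁, e₁⟩
    · have e' : Sp S i₂ 1 = Sp S i₃ 1 := by
        unfold Sp
        rw [if_neg (by omega), if_neg (by omega)]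
      have n23 : n₂ = n₃ := by unfold Step at s₂; omega
      subst n23
      refine ⟨k₃, p₃, ?_⟩
      have a1 := mx_le_mx_add g12 (n₂ - max k₃ 1)
      have a2 := mx_le_mx_add g23 (n₂ - max k₃ 1)
      have a3 := mx_le_mx_add g31 (n₂ - max k₃ 1)
      have a6 := mx_Smv_nonneg S i₂ (n₂ - max k₃ 1)
      rcases Nat.lt_or_ge k₃ k₁ with h | h
      · by_cases hk : k₃ = 0
        · subst hk
          omega
        · have a4 := mx_mono (Smv S i₁) (L := n₁ - max k₁ 1) (L' := n₂ - max k₃ 1) (by omega)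
          omega
      · have a4 := mx_mono (Smv S i₁) (L := n₂ - max k₃ 1) (L' := n₁ - max k₁ 1) (by omega)
        omega

end Pool.Agent.Lib.MP_900844_co
end

-- part Pool.Agent.Lib.MP_900844_co.Game
section

/-! The positions of type P among the positions whose small components are distinct. -/

namespace Pool.Agent.Lib.MP_900844_co

/-- number of components with size in `[1, j]` -/
def cnt {n : ℕ} (a : Fin n → ℕ) (j : ℕ) : ℕ := ∑ i, if 1 ≤ a i ∧ a i ≤ j then 1 else 0

/-- number of positive components -/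
def npos {n : ℕ} (a : Fin n → ℕ) : ℕ := ∑ i, if 1 ≤ a i then 1 else 0

/-- multiplicity of a size -/
def mult {n : ℕ} (a : Fin n → ℕ) (v : ℕ) : ℕ := ∑ i, if a i = v then 1 else 0

/-- the walk of a position -/
def wk {n : ℕ} (a : Fin n → ℕ) (j : ℕ) : ℤ := 2 * (cnt a j : ℤ) - j

/-- small positive components are distinct -/
def Good {n : ℕ} (a : Fin n → ℕ) : Prop := ∀ v, 1 ≤ v → v < npos a → mult a v ≤ 1

theorem cnt_zero {n : ℕ} (a : Fin n → ℕ) : cnt a 0 = 0 :=
  Finset.sum_eq_zero fun i _ => if_neg (by omega)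

theorem cnt_succ {n : ℕ} (a : Fin n → ℕ) (j : ℕ) : cnt a (j + 1) = cnt a j + mult a (j + 1) := by
  unfold cnt mult
  rw [← Finset.sum_add_distrib]
  refine Finset.sum_congr rfl fun i _ => ?_
  split_ifs <;> omega

theorem Good.walk {n : ℕ} {a : Fin n → ℕ} (h : Good a) : Walk (npos a) (wk a) := by
  refine ⟨by simp [wk, cnt_zero], fun j hj => ?_⟩
  have h1 := h (j + 1) (by omega) hj
  have h2 := cnt_succ a j
  unfold wk
  push_cast
  omega

theorem cnt_move {n : ℕ} (a : Fin (n + 1) → ℕ) (k : Fin (n + 1)) (hk : 1 ≤ a k) (j : ℕ) :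
    cnt (move a k) j + cnt a 1 + (if a k ≤ j + 1 then 1 else 0)
      = cnt a (j + 1) + (if a k ≤ 1 then 1 else 0) := by
  have h : cnt (move a k) j + ∑ i, (if 1 ≤ a (k.succAbove i) ∧ a (k.succAbove i) ≤ 1 then 1 else 0)
      = ∑ i, (if 1 ≤ a (k.succAbove i) ∧ a (k.succAbove i) ≤ j + 1 then 1 else 0) := by
    unfold cnt move
    rw [← Finset.sum_add_distrib]
    refine Finset.sum_congr rfl fun i _ => ?_
    split_ifs <;> omega
  have h1 : cnt a 1 = (if 1 ≤ a k ∧ a k ≤ 1 then 1 else 0) +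
      ∑ i, (if 1 ≤ a (k.succAbove i) ∧ a (k.succAbove i) ≤ 1 then 1 else 0) :=
    Fin.sum_univ_succAbove _ k
  have h2 : cnt a (j + 1) = (if 1 ≤ a k ∧ a k ≤ j + 1 then 1 else 0) +
      ∑ i, (if 1 ≤ a (k.succAbove i) ∧ a (k.succAbove i) ≤ j + 1 then 1 else 0) :=
    Fin.sum_univ_succAbove _ k
  rw [h1, h2, ← h]
  split_ifs <;> omega

theorem npos_move {n : ℕ} (a : Fin (n + 1) → ℕ) (k : Fin (n + 1)) (hk : 1 ≤ a k) :
    npos (move a k) + cnt a 1 + 1 = npos a + (if a k ≤ 1 then 1 else 0) := by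
  have h : npos (move a k) + ∑ i, (if 1 ≤ a (k.succAbove i) ∧ a (k.succAbove i) ≤ 1 then 1 else 0)
      = ∑ i, (if 1 ≤ a (k.succAbove i) then 1 else 0) := by
    unfold npos move
    rw [← Finset.sum_add_distrib]
    refine Finset.sum_congr rfl fun i _ => ?_
    split_ifs <;> omega
  have h1 : cnt a 1 = (if 1 ≤ a k ∧ a k ≤ 1 then 1 else 0) +
      ∑ i, (if 1 ≤ a (k.succAbove i) ∧ a (k.succAbove i) ≤ 1 then 1 else 0) :=
    Fin.sum_univ_succAbove _ k
  have h2 : npos a = (if 1 ≤ a k then 1 else 0) +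
      ∑ i, (if 1 ≤ a (k.succAbove i) then 1 else 0) :=
    Fin.sum_univ_succAbove _ k
  rw [h1, h2, ← h]
  split_ifs <;> omega

theorem mult_move {n : ℕ} (a : Fin (n + 1) → ℕ) (k : Fin (n + 1)) {v : ℕ} (hv : 1 ≤ v) :
    mult (move a k) v ≤ mult a (v + 1) := by
  have h2 : mult a (v + 1) = (if a k = v + 1 then 1 else 0) +
      ∑ i, (if a (k.succAbove i) = v + 1 then 1 else 0) :=
    Fin.sum_univ_succAbove _ k
  have h : mult (move a k) v = ∑ i, (if a (k.succAbove i) = v + 1 then 1 else 0) := by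
    unfold mult move
    refine Finset.sum_congr rfl fun i _ => ?_
    split_ifs <;> omega
  omega

theorem le_mult {n : ℕ} (a : Fin n → ℕ) (k : Fin n) : 1 ≤ mult a (a k) := by
  have := Finset.single_le_sum (f := fun i => if a i = a k then 1 else 0)
    (fun _ _ => Nat.zero_le _) (Finset.mem_univ k)
  simpa [mult] using this

theorem exists_of_mult {n : ℕ} (a : Fin n → ℕ) {v : ℕ} (h : 1 ≤ mult a v) : ∃ k, a k = v := by
  by_contra hh
  push Not at hh
  have : mult a v = 0 := Finset.sum_eq_zero fun i _ => if_neg (hh i)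
  omega

theorem wk_move {n : ℕ} (a : Fin (n + 1) → ℕ) (k : Fin (n + 1)) (hk : 1 ≤ a k) :
    wk (move a k) = Smv (wk a) (a k) := by
  funext j
  have h := cnt_move a k hk j
  unfold Smv Sp wk
  push_cast
  split_ifs at h ⊢ <;> omega

theorem Good.step {n : ℕ} {a : Fin (n + 1) → ℕ} (h : Good a) (k : Fin (n + 1)) (hk : 1 ≤ a k) :
    Step (npos a) (wk a) (a k) (npos (move a k)) := by
  have h1 := npos_move a k hk
  have h2 := cnt_succ a 0
  have h3 := h 1 le_rfl
  have h4 := le_mult a k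
  rw [cnt_zero] at h2
  simp only [zero_add] at h2
  unfold Step Sp wk
  push_cast
  split_ifs at h1 ⊢ with h5
  · have h6 : a k = 1 := by omega
    rw [h6] at h4
    omega
  · omega

theorem Good.move {n : ℕ} {a : Fin (n + 1) → ℕ} (h : Good a) (k : Fin (n + 1)) (hk : 1 ≤ a k) :
    Good (move a k) := by
  intro v hv hv'
  have h1 := h.step k hk
  unfold Step at h1
  exact (mult_move a k hv).trans (h (v + 1) (by omega) (by omega))

theorem Good.exists_big {n : ℕ} {a : Fin n → ℕ} (h : Good a) (hn : 1 ≤ npos a) :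
    ∃ k, npos a ≤ a k := by
  by_contra hh
  push Not at hh
  have h1 : cnt a (npos a - 1) = npos a := by
    conv_rhs => unfold npos
    unfold cnt
    refine Finset.sum_congr rfl fun i _ => ?_
    have := hh i
    split_ifs <;> omega
  have h2 := h.walk.le_self (j := npos a - 1) (by omega)
  unfold wk at h2
  omega

theorem Step.unique {n : ℕ} {S : ℕ → ℤ} {i n₁ n₂ : ℕ} (h1 : Step n S i n₁) (h2 : Step n S i n₂) :
    n₁ = n₂ := by
  unfold Step at h1 h2
  omega

theorem isN_iff : ∀ (n : ℕ) (a : Fin n → ℕ), Good a → (IsN n a ↔ ¬ Ch (npos a) (wk a))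
  | 0, a, h => by
    have h0 : npos a = 0 := by simp [npos]
    simp only [IsN, false_iff, not_not]
    rw [h0]
    exact Ch_zero _ h.walk.1
  | n + 1, a, h => by
    have ih : ∀ k, 1 ≤ a k → (¬ IsN n (move a k) ↔ Ch (npos (move a k)) (Smv (wk a) (a k))) := by
      intro k hk
      rw [isN_iff n (move a k) (h.move k hk), not_not, wk_move a k hk]
    constructor
    · rintro ⟨k, hk, hN⟩ hc
      exact not_Ch_of_Ch h.walk (h.step k hk) hc ((ih k hk).1 hN)
    · intro hc
      have hn : 1 ≤ npos a := by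
        by_contra hh
        have h0 : npos a = 0 := by omega
        rw [h0] at hc
        exact hc (Ch_zero _ h.walk.1)
      obtain ⟨k₀, hk₀⟩ := h.exists_big hn
      by_cases hn2 : 2 ≤ npos a
      · obtain ⟨i, n', hi1, hi, hs, hch⟩ := exists_move h.walk hn2 hk₀ hc
        have hex : ∃ k, a k = i := by
          rcases hi with rfl | ⟨-, hi⟩
          · exact ⟨k₀, rfl⟩
          · refine exists_of_mult a ?_
            have h2 := cnt_succ a (i - 1)
            rw [show i - 1 + 1 = i by omega] at h2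
            unfold wk at hi
            omega
        obtain ⟨k, rfl⟩ := hex
        refine ⟨k, hi1, (ih k hi1).2 ?_⟩
        rw [(h.step k hi1).unique hs]
        exact hch
      · have hk1 : 1 ≤ a k₀ := hn.trans hk₀
        refine ⟨k₀, hk1, (ih k₀ hk1).2 ?_⟩
        have hs := h.step k₀ hk1
        have h0 : npos (move a k₀) = 0 := by unfold Step at hs; omega
        rw [h0]
        exact Ch_zero _ (Smv_zero _ _)

theorem Strict.npos_eq {n : ℕ} {a : Fin n → ℕ} (h : Strict a) : npos a = n := by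
  unfold npos
  rw [Finset.sum_congr rfl fun i _ => if_pos (h.1 i)]
  simp

theorem Strict.good {n : ℕ} {a : Fin n → ℕ} (h : Strict a) : Good a := by
  intro v _ hv
  rw [h.npos_eq] at hv
  unfold mult
  rw [← Finset.card_filter, Finset.card_le_one]
  intro k hk l hl
  simp only [Finset.mem_filter, Finset.mem_univ, true_and] at hk hl
  by_contra hne
  have := h.2 k l hne (by omega)
  omega

theorem winning_convex {n : ℕ} {a : Fin (n + 1) → ℕ} (h : Good a) {k l m : Fin (n + 1)}
    (hkl : a k ≤ a l) (hlm : a l ≤ a m) (hk : Winning a k) (hm : Winning a m) : Winning a l := by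
  have hl1 : 1 ≤ a l := hk.1.trans hkl
  have ih : ∀ k, 1 ≤ a k → (¬ IsN n (move a k) ↔ Ch (npos (move a k)) (Smv (wk a) (a k))) := by
    intro k hk
    rw [isN_iff n (move a k) (h.move k hk), not_not, wk_move a k hk]
  exact ⟨hl1, (ih l hl1).2 (convex hkl hlm (h.step k hk.1) (h.step l hl1) (h.step m hm.1)
    ((ih k hk.1).1 hk.2) ((ih m hm.1).1 hm.2))⟩

end Pool.Agent.Lib.MP_900844_co
end
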